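import Mathlib

/-!
Vector racer trajectories in `ℤ^d`: the conjectured speed bound `√L` fails in every
dimension `d ≥ 2`, for arbitrarily large `L`, and even with `√L` replaced by `c * √L`
for any constant `c < 2 / √3`.
-/

namespace Pool.Agent.Results.MP_98930f_lc.SpeedBound

/-- A configuration: position and velocity in `ℤ^d`. -/
structure Config (d : ℕ) where
  pos : Fin d → ℤ
  vel : Fin d → ℤ

/-- The sequence `c 0, …, c ℓ` is a trajectory: each velocity is the difference of the
positions, and each coordinate of the velocity changes by `-1`, `0` or `1`. -/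
def IsTrajectory {d ℓ : ℕ} (c : Fin (ℓ + 1) → Config d) : Prop :=
  ∀ i : Fin ℓ, (c i.succ).vel = (c i.succ).pos - (c i.castSucc).pos ∧
    ∀ k, (c i.succ).vel k - (c i.castSucc).vel k ∈ ({-1, 0, 1} : Set ℤ)

/-- The configuration `c` visits the point `x`: `x` lies on the closed real segment
joining `pos - vel` and `pos`. -/
def Visits {d : ℕ} (c : Config d) (x : Fin d → ℤ) : Prop :=
  (fun k => (x k : ℝ)) ∈
    segment ℝ (fun k => ((c.pos k - c.vel k : ℤ) : ℝ)) (fun k => ((c.pos k : ℤ) : ℝ))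

/-- The sequence `c 0, …, c ℓ` is a feasible trajectory for the cities `x 0, …, x n`. -/
def Feasible {d n : ℕ} (x : Fin (n + 1) → Fin d → ℤ) {ℓ : ℕ}
    (c : Fin (ℓ + 1) → Config d) : Prop :=
  IsTrajectory c ∧
  (c 0).pos = x 0 ∧ (c 0).vel = 0 ∧
  (c (Fin.last ℓ)).pos = x (Fin.last n) ∧ (c (Fin.last ℓ)).vel = 0 ∧
  ∃ i : Fin (n + 1) → Fin (ℓ + 1), Monotone i ∧ ∀ j, Visits (c (i j)) (x j)

/-- A feasible trajectory of minimum length. -/
def Optimal {d n : ℕ} (x : Fin (n + 1) → Fin d → ℤ) {ℓ : ℕ}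
    (c : Fin (ℓ + 1) → Config d) : Prop :=
  Feasible x c ∧ ∀ (ℓ' : ℕ) (c' : Fin (ℓ' + 1) → Config d), Feasible x c' → ℓ ≤ ℓ'

/-- `L`: the largest difference of two cities in one coordinate. -/
def spread {d n : ℕ} (x : Fin (n + 1) → Fin d → ℤ) : ℕ :=
  Finset.univ.sup fun j : Fin (n + 1) => Finset.univ.sup fun j' : Fin (n + 1) =>
    Finset.univ.sup fun k : Fin d => (x j k - x j' k).natAbs

/-! ### The lower bound for slow trajectories -/

/-- Distance covered in `n` steps, given the velocities at both ends. -/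
lemma dist_le {V : ℤ} (u P : ℕ → ℤ) (s n : ℕ)
    (hu : ∀ t, s ≤ t → t ≤ s + n → u t ≤ V)
    (hl : ∀ t, s ≤ t → t < s + n → |u (t + 1) - u t| ≤ 1)
    (hP : ∀ t, s ≤ t → t < s + n → u (t + 1) = P (t + 1) - P t)
    (m : ℕ) (hm : 2 * m ≤ n) :
    P (s + n) - P s ≤ m * (u (s + n) + u s) + m ^ 2 + ((n : ℤ) - 2 * m) * V := by
  -- first m steps
  have h1 : ∀ r : ℕ, r ≤ n → u (s + r) ≤ u s + r := by
    intro r
    induction r with
    | zero => intro _; simp
    | succ r ih =>
      intro hr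
      have := ih (by omega)
      have h2 := hl (s + r) (by omega) (by omega)
      rw [abs_le] at h2
      have h3 : s + (r + 1) = s + r + 1 := by ring
      rw [h3]; push_cast; linarith [h2.2]
  have h1' : ∀ r : ℕ, r ≤ n → u (s + n - r) ≤ u (s + n) + r := by
    intro r
    induction r with
    | zero => intro _; simp
    | succ r ih =>
      intro hr
      have := ih (by omega)
      have h2 := hl (s + n - (r + 1)) (by omega) (by omega)
      rw [abs_le] at h2
      have h3 : s + n - (r + 1) + 1 = s + n - r := by omega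
      rw [h3] at h2
      push_cast; linarith [h2.1]
  have h2 : ∀ r : ℕ, r ≤ n → 2 * (P (s + r) - P s) ≤ 2 * r * u s + r * (r + 1) := by
    intro r
    induction r with
    | zero => intro _; simp
    | succ r ih =>
      intro hr
      have ih' := ih (by omega)
      have h3 := hP (s + r) (by omega) (by omega)
      have h4 := h1 (r + 1) (by omega)
      have h5 : s + (r + 1) = s + r + 1 := by ring
      rw [h5] at h4 ⊢
      push_cast at h4 ⊢
      nlinarith
  have h2' : ∀ r : ℕ, r ≤ n →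
      2 * (P (s + n) - P (s + n - r)) ≤ 2 * r * u (s + n) + r * (r - 1) := by
    intro r
    induction r with
    | zero => intro _; simp
    | succ r ih =>
      intro hr
      have ih' := ih (by omega)
      have h3 := hP (s + n - (r + 1)) (by omega) (by omega)
      have h5 : s + n - (r + 1) + 1 = s + n - r := by omega
      rw [h5] at h3
      have h4 := h1' r (by omega)
      push_cast at h4 ⊢
      nlinarith
  have h6 : ∀ r : ℕ, m + r ≤ n → P (s + (m + r)) - P (s + m) ≤ r * V := by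
    intro r
    induction r with
    | zero => intro _; simp
    | succ r ih =>
      intro hr
      have ih' := ih (by omega)
      have h3 := hP (s + (m + r)) (by omega) (by omega)
      have h4 := hu (s + (m + r) + 1) (by omega) (by omega)
      have h5 : s + (m + (r + 1)) = s + (m + r) + 1 := by ring
      rw [h5]; push_cast; linarith
  have e1 := h2 m (by omega)
  have e2 := h2' m (by omega)
  have e3 := h6 (n - 2 * m) (by omega)
  have e4 : s + (m + (n - 2 * m)) = s + n - m := by omega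
  rw [e4] at e3
  have e5 : ((n - 2 * m : ℕ) : ℤ) = (n : ℤ) - 2 * m := by
    have : n = (n - 2 * m) + 2 * m := by omega
    zify [hm]
  rw [e5] at e3
  nlinarith

/-- The key linear inequality for a leg on which a distance `D` is traversed. -/
lemma leg_le {V m n : ℕ} {D a b : ℤ} (hmV : m ≤ V)
    (hD : ∀ m' : ℕ, 2 * m' ≤ n → D ≤ m' * (a + b) + m' ^ 2 + ((n : ℤ) - 2 * m') * V)
    (hbig : (m : ℤ) * (2 * V - m) + V ≤ D) (hV : 0 < V) :
    D - m ^ 2 + 2 * m * V ≤ V * n + m * (a + b) := by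
  by_cases h : 2 * m ≤ n
  · have := hD m h
    linarith
  · push Not at h
    obtain ⟨m', ε, hn, hε⟩ : ∃ m' ε : ℕ, n = 2 * m' + ε ∧ ε ≤ 1 :=
      ⟨n / 2, n % 2, by omega, by omega⟩
    have hm' : m' < m := by omega
    have h1 := hD m' (by omega)
    have hn' : (n : ℤ) = 2 * m' + ε := by exact_mod_cast hn
    have hε0 : (0 : ℤ) ≤ ε := by positivity
    have hε1 : (ε : ℤ) ≤ 1 := by exact_mod_cast hε
    have hVm : (0 : ℤ) ≤ V := by positivity
    have hmV' : (m : ℤ) ≤ V := by exact_mod_cast hmV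
    have hVpos : (0 : ℤ) < V := by exact_mod_cast hV
    rw [hn'] at h1 ⊢
    rcases Nat.eq_zero_or_pos m' with h0 | h0
    · subst h0
      exfalso
      have : (m : ℤ) ≥ 1 := by exact_mod_cast (by omega : 1 ≤ m)
      simp at h1
      nlinarith
    · have hm0 : (0 : ℤ) < m' := by exact_mod_cast h0
      have hmm : (m' : ℤ) < m := by exact_mod_cast hm'
      -- multiply by m'
      have key : 0 ≤ (m' : ℤ) * (V * (2 * m' + ε) + m * (a + b) - (D - m ^ 2 + 2 * m * V)) := by
        have h3 : (D - m' ^ 2 - ε * V) ≤ m' * (a + b) := by linarith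
        have h4 : (m : ℤ) * (D - m' ^ 2 - ε * V) ≤ m * (m' * (a + b)) :=
          mul_le_mul_of_nonneg_left h3 (by positivity)
        have h5 : ((m : ℤ) - m') * (m' * (2 * V - m) + ε * V) ≤ (m - m') * D := by
          apply mul_le_mul_of_nonneg_left _ (by linarith)
          have : (m' : ℤ) * (2 * V - m) ≤ m * (2 * V - m) := by
            apply mul_le_mul_of_nonneg_right (by linarith) (by linarith)
          nlinarith
        nlinarith
      by_contra hcon
      push Not at hcon
      have : (m' : ℤ) * (V * (2 * m' + ε) + m * (a + b) - (D - m ^ 2 + 2 * m * V)) < 0 := by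
        apply mul_neg_of_pos_of_neg hm0
        linarith
      linarith


/-- The point `(a, b, 0, …, 0)`. -/
def pt (d : ℕ) (a b : ℤ) : Fin d → ℤ :=
  fun k => if k.val = 0 then a else if k.val = 1 then b else 0

/-- Corner number `j` of the square `[0, L]²`. -/
def corner (L : ℤ) (j : ℕ) : ℤ × ℤ :=
  if j % 4 = 0 then (0, 0) else if j % 4 = 1 then (L, 0)
  else if j % 4 = 2 then (L, L) else (0, L)

/-- Velocity in the direction of leg `j`, as a function of the two velocities. -/
def G (vx vy : ℤ) (j : ℕ) : ℤ :=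
  if j % 4 = 0 then vx else if j % 4 = 1 then vy
  else if j % 4 = 2 then -vx else -vy

lemma G_lip (vx vy vx' vy' : ℤ) (n : ℤ) (hx : |vx' - vx| ≤ n) (hy : |vy' - vy| ≤ n) (j : ℕ) :
    |G vx' vy' j - G vx vy j| ≤ n := by
  unfold G
  rw [abs_le] at *
  split_ifs <;> constructor <;> linarith [hx.1, hx.2, hy.1, hy.2]

lemma G_abs (vx vy : ℤ) (V : ℤ) (hx : |vx| ≤ V) (hy : |vy| ≤ V) (j : ℕ) :
    |G vx vy j| ≤ V := by
  unfold G
  split_ifs <;> simp [hx, hy]

lemma G_add_two (vx vy : ℤ) (j : ℕ) : G vx vy (j + 2) = - G vx vy j := by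
  unfold G
  have h : j % 4 = 0 ∨ j % 4 = 1 ∨ j % 4 = 2 ∨ j % 4 = 3 := by omega
  rcases h with h | h | h | h
  · have h' : (j + 2) % 4 = 2 := by omega
    simp [h, h']
  · have h' : (j + 2) % 4 = 3 := by omega
    simp [h, h']
  · have h' : (j + 2) % 4 = 0 := by omega
    simp [h, h']
  · have h' : (j + 2) % 4 = 1 := by omega
    simp [h, h']

lemma visits_coord {d : ℕ} {c : Config d} {x : Fin d → ℤ} (h : Visits c x) :
    ∃ θ : ℝ, 0 ≤ θ ∧ θ ≤ 1 ∧ ∀ k, (x k : ℝ) = c.pos k - θ * c.vel k := by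
  obtain ⟨a, b, ha, hb, hab, h⟩ := h
  refine ⟨a, ha, by linarith, fun k => ?_⟩
  have := congrFun h k
  simp only [Pi.add_apply, Pi.smul_apply, smul_eq_mul] at this
  push_cast at this
  rw [← this]
  have hb' : b = 1 - a := by linarith
  rw [hb']; ring

/-- Distance between consecutive corners, in the direction of the leg. -/
lemma corner_leg (L : ℤ) (j : ℕ) :
    G (corner L (j + 1)).1 (corner L (j + 1)).2 j - G (corner L j).1 (corner L j).2 j = L := by
  have h : j % 4 = 0 ∨ j % 4 = 1 ∨ j % 4 = 2 ∨ j % 4 = 3 := by omega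
  unfold corner G
  rcases h with h | h | h | h
  · have h' : (j + 1) % 4 = 1 := by omega
    simp [h, h']
  · have h' : (j + 1) % 4 = 2 := by omega
    simp [h, h']
  · have h' : (j + 1) % 4 = 3 := by omega
    simp [h, h']
  · have h' : (j + 1) % 4 = 0 := by omega
    simp [h, h']

/-- The real version of `G`, used for the visited points. -/
lemma G_visit {vx vy px py x y : ℤ} {θ : ℝ} (hx : (x : ℝ) = px - θ * vx)
    (hy : (y : ℝ) = py - θ * vy) (j : ℕ) :
    (G x y j : ℝ) = G px py j - θ * G vx vy j := by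
  unfold G
  split_ifs
  · exact hx
  · exact hy
  · push_cast; rw [hx]; ring
  · push_cast; rw [hy]; ring

/-- Every trajectory of speed at most `V` which visits the corners `0, …, J` is long. -/
lemma lower {d ℓ J V m : ℕ} {L : ℤ} (hd : 2 ≤ d) (c : ℕ → Config d)
    (htr : ∀ t < ℓ, (c (t + 1)).vel = (c (t + 1)).pos - (c t).pos ∧
      ∀ k, |(c (t + 1)).vel k - (c t).vel k| ≤ 1)
    (idx : ℕ → ℕ) (hmono : ∀ j < J, idx j ≤ idx (j + 1)) (hle : idx J ≤ ℓ)
    (hvis : ∀ j ≤ J, Visits (c (idx j)) (pt d (corner L j).1 (corner L j).2))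
    (hcap : ∀ t ≤ ℓ, ∀ k, |(c t).vel k| ≤ V)
    (hmV : m ≤ V) (hV : 0 < V) (hbig : (m : ℤ) * (2 * V - m) + 3 * V ≤ L) :
    (J : ℤ) * (L - 2 * V - m ^ 2 + 2 * m * V) ≤ (V + m) * ℓ + 4 * m * V := by
  set k0 : Fin d := ⟨0, by omega⟩ with hk0
  set k1 : Fin d := ⟨1, by omega⟩ with hk1
  have hpt0 : ∀ a b, pt d a b k0 = a := by intro a b; simp [pt, k0]
  have hpt1 : ∀ a b, pt d a b k1 = b := by intro a b; simp [pt, k1]
  set u : ℕ → ℕ → ℤ := fun j t => G ((c t).vel k0) ((c t).vel k1) j with hu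
  set P : ℕ → ℕ → ℤ := fun j t => G ((c t).pos k0) ((c t).pos k1) j with hPdef
  have hidx : ∀ j ≤ J, ∀ i ≤ j, idx i ≤ idx j := by
    intro j
    induction j with
    | zero => intro _ i hi; simp at hi; rw [hi]
    | succ j ih =>
      intro hj i hi
      rcases Nat.lt_or_ge i (j + 1) with h | h
      · exact le_trans (ih (by omega) i (by omega)) (hmono j (by omega))
      · have : i = j + 1 := by omega
        rw [this]
  have hidxℓ : ∀ j ≤ J, idx j ≤ ℓ := fun j hj => le_trans (hidx J le_rfl j hj) hle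
  have hucap : ∀ j, ∀ t ≤ ℓ, |u j t| ≤ V := by
    intro j t ht
    exact G_abs _ _ _ (hcap t ht k0) (hcap t ht k1) j
  have hulip : ∀ j, ∀ t < ℓ, |u j (t + 1) - u j t| ≤ 1 := by
    intro j t ht
    exact G_lip _ _ _ _ 1 ((htr t ht).2 k0) ((htr t ht).2 k1) j
  have hP : ∀ j, ∀ t < ℓ, u j (t + 1) = P j (t + 1) - P j t := by
    intro j t ht
    have h := (htr t ht).1
    have h0 := congrFun h k0
    have h1 := congrFun h k1
    simp only [Pi.sub_apply] at h0 h1
    simp only [hu, hPdef, h0, h1]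
    unfold G
    split_ifs <;> ring
  have hulip' : ∀ j s n, s + n ≤ ℓ → |u j (s + n) - u j s| ≤ n := by
    intro j s n
    induction n with
    | zero => intro _; simp
    | succ n ih =>
      intro hn
      have h1 := ih (by omega)
      have h2 := hulip j (s + n) (by omega)
      rw [abs_le] at *
      have h3 : s + (n + 1) = s + n + 1 := by ring
      rw [h3]
      push_cast
      constructor <;> linarith [h1.1, h1.2, h2.1, h2.2]
  -- one leg
  have hleg : ∀ j < J, (L - 2 * V - m ^ 2 + 2 * m * V)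
      + m * ((u (j + 3) (idx j) - u j (idx j)) - (u (j + 4) (idx (j + 1)) - u (j + 1) (idx (j + 1))))
      ≤ (V + m) * ((idx (j + 1) : ℤ) - idx j) := by
    intro j hj
    have hs := hmono j hj
    obtain ⟨n, hn⟩ := Nat.exists_eq_add_of_le hs
    have he : idx j + n ≤ ℓ := by rw [← hn]; exact hidxℓ (j + 1) (by omega)
    obtain ⟨θ, hθ0, hθ1, hθ⟩ := visits_coord (hvis j (by omega))
    obtain ⟨θ', hθ0', hθ1', hθ'⟩ := visits_coord (hvis (j + 1) (by omega))
    have g1 := G_visit (by simpa [hpt0] using hθ k0) (by simpa [hpt1] using hθ k1) j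
    have g2 := G_visit (by simpa [hpt0] using hθ' k0) (by simpa [hpt1] using hθ' k1) j
    have g3 := corner_leg L j
    have b1 := hucap j (idx j) (hidxℓ j (by omega))
    have b2 := hucap j (idx (j + 1)) (hidxℓ (j + 1) (by omega))
    -- L ≤ D + 2V
    have hD : L - 2 * V ≤ P j (idx j + n) - P j (idx j) := by
      rw [← hn]
      have g3' : ((G (corner L (j + 1)).1 (corner L (j + 1)).2 j : ℤ) : ℝ)
          - (G (corner L j).1 (corner L j).2 j : ℤ) = L := by exact_mod_cast g3
      rw [g1, g2] at g3'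
      have b1' : |((u j (idx j) : ℤ) : ℝ)| ≤ V := by exact_mod_cast b1
      have b2' : |((u j (idx (j + 1)) : ℤ) : ℝ)| ≤ V := by exact_mod_cast b2
      have e1 : θ * (u j (idx j) : ℝ) ≤ V := by
        calc θ * (u j (idx j) : ℝ) ≤ |θ * (u j (idx j) : ℝ)| := le_abs_self _
          _ = θ * |(u j (idx j) : ℝ)| := by rw [abs_mul, abs_of_nonneg hθ0]
          _ ≤ 1 * V := mul_le_mul hθ1 b1' (abs_nonneg _) (by norm_num)
          _ = V := by ring
      have e2 : -(θ' * (u j (idx (j + 1)) : ℝ)) ≤ V := by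
        calc -(θ' * (u j (idx (j + 1)) : ℝ)) ≤ |θ' * (u j (idx (j + 1)) : ℝ)| := neg_le_abs _
          _ = θ' * |(u j (idx (j + 1)) : ℝ)| := by rw [abs_mul, abs_of_nonneg hθ0']
          _ ≤ 1 * V := mul_le_mul hθ1' b2' (abs_nonneg _) (by norm_num)
          _ = V := by ring
      have : (L : ℝ) - 2 * V ≤ P j (idx (j + 1)) - P j (idx j) := by
        simp only [hPdef]
        simp only [hu] at e1 e2
        linarith
      exact_mod_cast this
    have hA := leg_le (V := V) (m := m) (n := n) (D := P j (idx j + n) - P j (idx j))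
      (a := u j (idx j + n)) (b := u j (idx j)) hmV
      (by
        intro m' hm'
        exact dist_le (u j) (P j) (idx j) n
          (fun t h1 h2 => le_trans (le_abs_self _) (hucap j t (by omega)))
          (fun t h1 h2 => hulip j t (by omega))
          (fun t h1 h2 => hP j t (by omega)) m' hm')
      (by linarith) hV
    have hB := hulip' (j + 3) (idx j) n he
    rw [abs_le] at hB
    have e1 : u (j + 4) (idx (j + 1)) = u j (idx (j + 1)) := by
      simp only [hu]
      rw [show j + 4 = j + 2 + 2 by ring, G_add_two, G_add_two, neg_neg]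
    have e2 : u (j + 1) (idx (j + 1)) = - u (j + 3) (idx (j + 1)) := by
      simp only [hu]
      rw [show j + 3 = j + 1 + 2 by ring, G_add_two, neg_neg]
    rw [e1, e2, hn]
    push_cast
    have hm0 : (0 : ℤ) ≤ m := by positivity
    nlinarith [mul_le_mul_of_nonneg_left hB.1 hm0]
  -- telescoping
  have htel : ∀ j ≤ J, (j : ℤ) * (L - 2 * V - m ^ 2 + 2 * m * V)
      + m * ((u 3 (idx 0) - u 0 (idx 0)) - (u (j + 3) (idx j) - u j (idx j)))
      ≤ (V + m) * ((idx j : ℤ) - idx 0) := by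
    intro j
    induction j with
    | zero => intro _; simp
    | succ j ih =>
      intro hj
      have h1 := ih (by omega)
      have h2 := hleg j (by omega)
      have e : j + 1 + 3 = j + 4 := by ring
      rw [e]
      push_cast
      linarith
  have hfin := htel J le_rfl
  have q1 := abs_le.1 (hucap 3 (idx 0) (hidxℓ 0 (by omega)))
  have q2 := abs_le.1 (hucap 0 (idx 0) (hidxℓ 0 (by omega)))
  have q3 := abs_le.1 (hucap (J + 3) (idx J) (hidxℓ J (by omega)))
  have q4 := abs_le.1 (hucap J (idx J) (hidxℓ J (by omega)))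
  have hm0 : (0 : ℤ) ≤ m := by positivity
  have hle' : (idx J : ℤ) ≤ ℓ := by exact_mod_cast hle
  have hi0 : (0 : ℤ) ≤ idx 0 := by positivity
  have r1 : -(4 * V : ℤ) ≤ (u 3 (idx 0) - u 0 (idx 0)) - (u (J + 3) (idx J) - u J (idx J)) := by
    linarith [q1.1, q2.2, q3.2, q4.1]
  have r2 := mul_le_mul_of_nonneg_left r1 hm0
  have r3 : ((V : ℤ) + m) * ((idx J : ℤ) - idx 0) ≤ (V + m) * ℓ := by
    apply mul_le_mul_of_nonneg_left (by linarith) (by positivity)
  linarith


/-! ### The explicit fast trajectory -/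

/-- After `T` steps one can be in configuration `q`, having visited cities `0, …, k`. -/
def Reach {d : ℕ} (x : ℕ → Fin d → ℤ) (k T : ℕ) (q : Config d) : Prop :=
  ∃ c : ℕ → Config d, (c 0).pos = x 0 ∧ (c 0).vel = 0 ∧ c T = q ∧
    (∀ t < T, (c (t + 1)).vel = (c (t + 1)).pos - (c t).pos ∧
      ∀ k, (c (t + 1)).vel k - (c t).vel k ∈ ({-1, 0, 1} : Set ℤ)) ∧
    ∃ i : ℕ → ℕ, Monotone i ∧ (∀ j, i j ≤ T) ∧ ∀ j ≤ k, Visits (c (i j)) (x j)

lemma visits_self {d : ℕ} (c : Config d) : Visits c c.pos := right_mem_segment _ _ _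

lemma reach_zero {d : ℕ} (x : ℕ → Fin d → ℤ) : Reach x 0 0 ⟨x 0, 0⟩ := by
  refine ⟨fun _ => ⟨x 0, 0⟩, rfl, rfl, rfl, by simp, fun _ => 0, monotone_const, by simp, ?_⟩
  intro j hj
  obtain rfl : j = 0 := by omega
  exact visits_self (⟨x 0, 0⟩ : Config d)

lemma reach_step {d : ℕ} {x : ℕ → Fin d → ℤ} {k T : ℕ} {q : Config d} (h : Reach x k T q)
    (q' : Config d) (h1 : q'.vel = q'.pos - q.pos)
    (h2 : ∀ k, q'.vel k - q.vel k ∈ ({-1, 0, 1} : Set ℤ)) : Reach x k (T + 1) q' := by
  obtain ⟨c, c0, c0', cT, hc, i, hi, hiT, hv⟩ := h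
  refine ⟨fun t => if t ≤ T then c t else q', by simpa using c0, by simpa using c0', by simp, ?_,
    i, hi, fun j => le_trans (hiT j) (Nat.le_succ T), ?_⟩
  · intro t ht
    rcases Nat.lt_or_ge t T with h | h
    · have e1 : t + 1 ≤ T := h
      have e2 : t ≤ T := by omega
      simp only [e1, e2, if_true]
      exact hc t h
    · have e : t = T := by omega
      subst e
      simp only [le_refl, if_true, Nat.not_succ_le_self, if_false]
      rw [cT]
      exact ⟨h1, h2⟩
  · intro j hj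
    simp only [hiT j, if_true]
    exact hv j hj

lemma reach_visit {d : ℕ} {x : ℕ → Fin d → ℤ} {k T : ℕ} {q : Config d} (h : Reach x k T q)
    (h1 : q.pos = x (k + 1)) : Reach x (k + 1) T q := by
  obtain ⟨c, c0, c0', cT, hc, i, hi, hiT, hv⟩ := h
  refine ⟨c, c0, c0', cT, hc, fun j => if j ≤ k then i j else T, ?_, ?_, ?_⟩
  · intro a b hab
    dsimp only
    by_cases hb : b ≤ k
    · have ha : a ≤ k := le_trans hab hb
      simp only [ha, hb, if_true]
      exact hi hab
    · simp only [hb, if_false]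
      split_ifs
      · exact hiT a
      · exact le_rfl
  · intro j
    dsimp only
    split_ifs
    · exact hiT j
    · exact le_rfl
  · intro j hj
    by_cases hjk : j ≤ k
    · simp only [hjk, if_true]
      exact hv j hjk
    · obtain rfl : j = k + 1 := by omega
      simp only [hjk, if_false]
      rw [cT, ← h1]
      exact visits_self q

/-- Triangular numbers. -/
def tri : ℕ → ℤ
  | 0 => 0
  | n + 1 => tri n + (n + 1)

lemma two_tri (n : ℕ) : 2 * tri n = n * (n + 1) := by
  induction n with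
  | zero => simp [tri]
  | succ n ih => simp only [tri]; push_cast; linarith

/-- Constant acceleration for `n` steps. -/
lemma reach_ramp {d : ℕ} {x : ℕ → Fin d → ℤ} {k T : ℕ} {a b va vb : ℤ}
    (h : Reach x k T ⟨pt d a b, pt d va vb⟩) (ax ay : ℤ)
    (hax : ax ∈ ({-1, 0, 1} : Set ℤ)) (hay : ay ∈ ({-1, 0, 1} : Set ℤ)) (n : ℕ) :
    Reach x k (T + n) ⟨pt d (a + n * va + tri n * ax) (b + n * vb + tri n * ay),
      pt d (va + n * ax) (vb + n * ay)⟩ := by
  induction n with
  | zero => simpa [tri] using h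
  | succ n ih =>
    refine reach_step ih _ ?_ ?_
    · funext i
      simp only [Pi.sub_apply, pt, tri]
      split_ifs <;> push_cast <;> ring
    · intro i
      simp only [pt]
      split_ifs
      · have : va + ((n + 1 : ℕ) : ℤ) * ax - (va + n * ax) = ax := by push_cast; ring
        rw [this]; exact hax
      · have : vb + ((n + 1 : ℕ) : ℤ) * ay - (vb + n * ay) = ay := by push_cast; ring
        rw [this]; exact hay
      · simp

/-- The velocity of the periodic trajectory at corner `j`. -/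
def cv (w : ℤ) (j : ℕ) : ℤ × ℤ :=
  if j % 4 = 0 then (w, -(w + 1)) else if j % 4 = 1 then (w + 1, w)
  else if j % 4 = 2 then (-w, w + 1) else (-(w + 1), -w)

/-- The side length. -/
def side (w : ℕ) : ℤ := 3 * w ^ 2 + 3 * w + 1

lemma reach_leg {d : ℕ} {x : ℕ → Fin d → ℤ} {k T w : ℕ} {j : ℕ}
    (h : Reach x k T ⟨pt d (corner (side w) j).1 (corner (side w) j).2,
      pt d (cv w j).1 (cv w j).2⟩) :
    Reach x k (T + (2 * w + 1)) ⟨pt d (corner (side w) (j + 1)).1 (corner (side w) (j + 1)).2,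
      pt d (cv w (j + 1)).1 (cv w (j + 1)).2⟩ := by
  have hj : j % 4 = 0 ∨ j % 4 = 1 ∨ j % 4 = 2 ∨ j % 4 = 3 := by omega
  have t1 := two_tri (w + 1)
  have t2 := two_tri w
  push_cast at t1
  have hT : T + (2 * w + 1) = T + (w + 1) + w := by ring
  rw [hT]
  have m1 : (-1 : ℤ) ∈ ({-1, 0, 1} : Set ℤ) := by simp
  have m2 : (1 : ℤ) ∈ ({-1, 0, 1} : Set ℤ) := by simp
  rcases hj with hj | hj | hj | hj
  · have hj' : (j + 1) % 4 = 1 := by omega
    have := reach_ramp (reach_ramp h 1 1 m2 m2 (w + 1)) (-1) 1 m1 m2 w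
    simp only [corner, cv, hj, hj', side] at this ⊢
    simp only [if_true, if_false, one_ne_zero] at this ⊢
    convert this using 3 <;> push_cast <;> nlinarith
  · have hj' : (j + 1) % 4 = 2 := by omega
    have := reach_ramp (reach_ramp h (-1) 1 m1 m2 (w + 1)) (-1) (-1) m1 m1 w
    simp only [corner, cv, hj, hj', side] at this ⊢
    norm_num at this ⊢
    convert this using 3 <;> nlinarith
  · have hj' : (j + 1) % 4 = 3 := by omega
    have := reach_ramp (reach_ramp h (-1) (-1) m1 m1 (w + 1)) 1 (-1) m2 m1 w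
    simp only [corner, cv, hj, hj', side] at this ⊢
    norm_num at this ⊢
    convert this using 3 <;> nlinarith
  · have hj' : (j + 1) % 4 = 0 := by omega
    have := reach_ramp (reach_ramp h 1 (-1) m2 m1 (w + 1)) 1 1 m2 m2 w
    simp only [corner, cv, hj, hj', side] at this ⊢
    norm_num at this ⊢
    convert this using 3 <;> nlinarith

/-- The cities, indexed by natural numbers: a start city, the corners `0, …, J`, and an
end city. -/
def citiesN (d w J : ℕ) : ℕ → Fin d → ℤ := fun j =>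
  if j = 0 then pt d (tri w - w) (tri (w + 1))
  else if j ≤ J + 1 then pt d (corner (side w) (j - 1)).1 (corner (side w) (j - 1)).2
  else pt d (tri w - w) (tri w - w)

lemma reach_end (d w J : ℕ) (hw : 1 ≤ w) (hJ : J % 4 = 0) :
    Reach (citiesN d w J) (J + 2) (J * (2 * w + 1) + 6 * w + 1)
      ⟨pt d (tri w - w) (tri w - w), pt d 0 0⟩ := by
  have m1 : (-1 : ℤ) ∈ ({-1, 0, 1} : Set ℤ) := by simp
  have m2 : (1 : ℤ) ∈ ({-1, 0, 1} : Set ℤ) := by simp
  have m0 : (0 : ℤ) ∈ ({-1, 0, 1} : Set ℤ) := by simp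
  obtain ⟨w', rfl⟩ := Nat.exists_eq_add_of_le' hw
  set w := w' + 1 with hw'
  have t1 := two_tri (w + 1)
  have t2 := two_tri w
  have t3 := two_tri w'
  push_cast at t1
  have hwz : (w' : ℤ) = w - 1 := by rw [hw']; push_cast; ring
  have h0 : Reach (citiesN d w J) 0 0 ⟨pt d (tri w - w) (tri (w + 1)), pt d 0 0⟩ := by
    have := reach_zero (citiesN d w J)
    have e : (pt d 0 0) = 0 := by funext i; simp [pt]
    rw [e]
    simpa [citiesN] using this
  have h1 := reach_ramp (reach_ramp (reach_ramp h0 (-1) 0 m1 m0 w) 1 0 m2 m0 w') 1 (-1) m2 m1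
    (w + 1)
  have h2 : Reach (citiesN d w J) 0 (3 * w) ⟨pt d (corner (side w) 0).1 (corner (side w) 0).2,
      pt d (cv w 0).1 (cv w 0).2⟩ := by
    have eT : 3 * w = 0 + w + w' + (w + 1) := by omega
    rw [eT]
    convert h1 using 3
    · simp only [corner]
      norm_num
      push_cast
      rw [hwz] at *
      nlinarith
    · simp only [corner]
      norm_num
    · simp only [cv]
      norm_num
      try push_cast
      try rw [hwz]
      try ring
    · simp only [cv]
      norm_num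
      try push_cast
      try ring
  have h3 : ∀ j ≤ J, Reach (citiesN d w J) (j + 1) (3 * w + j * (2 * w + 1))
      ⟨pt d (corner (side w) j).1 (corner (side w) j).2, pt d (cv w j).1 (cv w j).2⟩ := by
    intro j
    induction j with
    | zero =>
      intro _
      have := reach_visit h2 (by simp [citiesN])
      simpa using this
    | succ j ih =>
      intro hj
      have h4 := reach_leg (ih (by omega))
      have h5 := reach_visit h4 (by simp [citiesN]; omega)
      have e : 3 * w + (j + 1) * (2 * w + 1) = 3 * w + j * (2 * w + 1) + (2 * w + 1) := by ring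
      rw [e]
      exact h5
  have h4 := h3 J le_rfl
  have eJ : (corner (side w) J) = (0, 0) := by simp [corner, hJ]
  have eJ' : (cv w J) = ((w : ℤ), -((w : ℤ) + 1)) := by simp [cv, hJ]
  rw [eJ, eJ'] at h4
  have h5 := reach_ramp (reach_ramp (reach_ramp h4 (-1) 1 m1 m2 w) 0 1 m0 m2 (w + 1)) 0 (-1)
    m0 m1 w
  have h6 : Reach (citiesN d w J) (J + 1) (J * (2 * w + 1) + 6 * w + 1)
      ⟨pt d (tri w - w) (tri w - w), pt d 0 0⟩ := by
    have eT : J * (2 * w + 1) + 6 * w + 1 = 3 * w + J * (2 * w + 1) + w + (w + 1) + w := by ring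
    rw [eT]
    convert h5 using 3
    · push_cast; nlinarith
    · push_cast; nlinarith
    · push_cast; ring
    · push_cast; ring
  exact reach_visit h6 (by simp [citiesN])


/-- The cities of the counterexample. -/
def cities (d w J : ℕ) : Fin (J + 2 + 1) → Fin d → ℤ := fun j => citiesN d w J j

lemma feasible_exists (d w J : ℕ) (hw : 1 ≤ w) (hJ : J % 4 = 0) :
    ∃ c : Fin (J * (2 * w + 1) + 6 * w + 1 + 1) → Config d, Feasible (cities d w J) c := by
  obtain ⟨c, c0, c0', cT, hc, i, hi, hiT, hv⟩ := reach_end d w J hw hJ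
  refine ⟨fun t => c t, ?_, ?_, ?_, ?_, ?_, fun j => ⟨i j, Nat.lt_succ_of_le (hiT j)⟩, ?_, ?_⟩
  · intro t
    have := hc t t.isLt
    simpa using this
  · simpa [cities] using c0
  · simpa using c0'
  · simp [cT, cities, citiesN]
  · simp only [Fin.val_last, cT]
    funext k
    simp [pt]
  · intro a b hab
    exact hi hab
  · intro j
    exact hv j (Nat.lt_succ_iff.1 j.isLt)

lemma tri_bounds (w : ℕ) (hw : 1 ≤ w) : 0 ≤ tri w - w ∧ tri w - w ≤ side w ∧
    0 ≤ tri (w + 1) ∧ tri (w + 1) ≤ side w := by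
  have h1 := two_tri w
  have h2 := two_tri (w + 1)
  have hw' : (1 : ℤ) ≤ w := by exact_mod_cast hw
  unfold side
  push_cast at *
  refine ⟨?_, ?_, ?_, ?_⟩ <;> nlinarith

lemma pt_bounds (d : ℕ) (S a b : ℤ) (ha : 0 ≤ a ∧ a ≤ S) (hb : 0 ≤ b ∧ b ≤ S) (k : Fin d) :
    0 ≤ pt d a b k ∧ pt d a b k ≤ S := by
  unfold pt
  split_ifs
  · exact ha
  · exact hb
  · exact ⟨le_rfl, le_trans ha.1 ha.2⟩

lemma citiesN_bounds (d w J j : ℕ) (hw : 1 ≤ w) (k : Fin d) :
    0 ≤ citiesN d w J j k ∧ citiesN d w J j k ≤ side w := by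
  obtain ⟨h1, h2, h3, h4⟩ := tri_bounds w hw
  have h5 : 0 ≤ side w := le_trans h1 h2
  unfold citiesN
  split_ifs
  · exact pt_bounds _ _ _ _ ⟨h1, h2⟩ ⟨h3, h4⟩ k
  · apply pt_bounds
    · unfold corner
      split_ifs <;> simp [h5]
    · unfold corner
      split_ifs <;> simp [h5]
  · exact pt_bounds _ _ _ _ ⟨h1, h2⟩ ⟨h1, h2⟩ k

lemma spread_eq (d w J : ℕ) (hd : 2 ≤ d) (hw : 1 ≤ w) (hJ : 1 ≤ J) :
    ((spread (cities d w J) : ℕ) : ℤ) = side w := by
  apply le_antisymm
  · have h0 : 0 ≤ side w := le_trans (tri_bounds w hw).1 (tri_bounds w hw).2.1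
    obtain ⟨s, hs⟩ := Int.eq_ofNat_of_zero_le h0
    rw [hs]
    have : spread (cities d w J) ≤ s := by
      unfold spread
      refine Finset.sup_le fun j _ => Finset.sup_le fun j' _ => Finset.sup_le fun k _ => ?_
      have b1 := citiesN_bounds d w J j hw k
      have b2 := citiesN_bounds d w J j' hw k
      simp only [cities]
      omega
    exact_mod_cast this
  · obtain ⟨j2, hj2⟩ : ∃ j2 : Fin (J + 2 + 1), j2.val = 2 := ⟨⟨2, by omega⟩, rfl⟩
    obtain ⟨j1, hj1⟩ : ∃ j1 : Fin (J + 2 + 1), j1.val = 1 := ⟨⟨1, by omega⟩, rfl⟩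
    obtain ⟨k0, hk0⟩ : ∃ k0 : Fin d, k0.val = 0 := ⟨⟨0, by omega⟩, rfl⟩
    have h1 : (cities d w J j2 k0 - cities d w J j1 k0).natAbs ≤ spread (cities d w J) := by
      unfold spread
      refine le_trans ?_ (Finset.le_sup (f := fun j : Fin (J + 2 + 1) =>
        Finset.univ.sup fun j' : Fin (J + 2 + 1) =>
        Finset.univ.sup fun k : Fin d => (cities d w J j k - cities d w J j' k).natAbs)
        (Finset.mem_univ j2))
      refine le_trans ?_ (Finset.le_sup (f := fun j' : Fin (J + 2 + 1) =>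
        Finset.univ.sup fun k : Fin d => (cities d w J j2 k
          - cities d w J j' k).natAbs) (Finset.mem_univ j1))
      exact (Finset.le_sup (f := fun k : Fin d => (cities d w J j2 k
          - cities d w J j1 k).natAbs) (Finset.mem_univ k0))
    have h2 : cities d w J j2 k0 = side w := by
      simp [cities, citiesN, corner, pt, hj2, hk0, hJ]
    have h3 : cities d w J j1 k0 = 0 := by
      simp [cities, citiesN, corner, pt, hj1, hk0]
    rw [h2, h3] at h1
    omega

/-- Arithmetic behind `slow_not_short`. -/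
lemma arith (k u J ℓ : ℤ) (hk : 0 ≤ k) (hu : 8 * (k + 1) ≤ u) (hJ : J = 60 * (k + 1) ^ 2)
    (h4 : J * ((3 * ((k + 1) * u) ^ 2 + 3 * ((k + 1) * u) + 1) - 2 * ((2 * k + 1) * u)
      - (k * u) ^ 2 + 2 * (k * u) * ((2 * k + 1) * u))
      ≤ ((2 * k + 1) * u + k * u) * ℓ + 4 * (k * u) * ((2 * k + 1) * u))
    (hℓ : ℓ ≤ J * (2 * ((k + 1) * u) + 1) + 6 * ((k + 1) * u) + 1) : False := by
  have hu1 : 1 ≤ u := by linarith
  have h3 : ((2 * k + 1) * u + k * u) * ℓ
      ≤ ((2 * k + 1) * u + k * u) * (J * (2 * ((k + 1) * u) + 1) + 6 * ((k + 1) * u) + 1) :=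
    mul_le_mul_of_nonneg_left hℓ (by positivity)
  have h5 : J * (u ^ 2 - 4 * (k * u) + 1) ≤
      4 * (k * u) * ((2 * k + 1) * u) + ((3 * k + 1) * u) * (6 * ((k + 1) * u) + 1) := by
    have e : J * ((3 * ((k + 1) * u) ^ 2 + 3 * ((k + 1) * u) + 1) - 2 * ((2 * k + 1) * u)
      - (k * u) ^ 2 + 2 * (k * u) * ((2 * k + 1) * u)) =
      J * (u ^ 2 - 4 * (k * u) + 1) + ((2 * k + 1) * u + k * u) * (J * (2 * ((k + 1) * u) + 1)) := by
      ring
    linarith
  have h6 : u ^ 2 ≤ 2 * (u ^ 2 - 4 * (k * u) + 1) := by nlinarith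
  have h7 : 30 * (k + 1) ^ 2 * u ^ 2 ≤ J * (u ^ 2 - 4 * (k * u) + 1) := by
    rw [hJ]
    have : (0 : ℤ) ≤ 30 * (k + 1) ^ 2 := by positivity
    have := mul_le_mul_of_nonneg_left h6 this
    linarith
  have e1 : (0 : ℤ) < u ^ 2 := by positivity
  have e2 : (u : ℤ) ≤ u ^ 2 := by nlinarith
  have e3 : (3 * k + 1 : ℤ) * u ≤ (3 * k + 1) * u ^ 2 :=
    mul_le_mul_of_nonneg_left e2 (by positivity)
  have e4 : 4 * ((k : ℤ) * u) * ((2 * k + 1) * u) + ((3 * k + 1) * u) * (6 * ((k + 1) * u) + 1)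
      = (4 * k * (2 * k + 1) + 6 * (3 * k + 1) * (k + 1)) * u ^ 2 + (3 * k + 1) * u := by ring
  rw [e4] at h5
  have e5 : (4 * k * (2 * k + 1) + 6 * (3 * k + 1) * (k + 1) + (3 * k + 1) : ℤ)
      < 30 * (k + 1) ^ 2 := by nlinarith
  have e6 := mul_lt_mul_of_pos_right e5 e1
  linarith

/-- A feasible trajectory whose speeds are at most `(2k+1)u` is not optimal. -/
lemma slow_not_short (d k u w J : ℕ) (hw : w = (k + 1) * u) (hJ : J = 60 * (k + 1) ^ 2)
    (hd : 2 ≤ d) (hu : 8 * (k + 1) ≤ u) {ℓ : ℕ}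
    (c : Fin (ℓ + 1) → Config d) (hc : Feasible (cities d w J) c)
    (hcap : ∀ i k', |(c i).vel k'| ≤ (((2 * k + 1) * u : ℕ) : ℤ)) :
    J * (2 * w + 1) + 6 * w + 1 < ℓ := by
  by_contra hcon
  push Not at hcon
  obtain ⟨htr, h0, h0', hℓ, hℓ', idx, hidx, hvis⟩ := hc
  set c' : ℕ → Config d := fun t => c ⟨min t ℓ, by omega⟩ with hc'
  have hupos : 1 ≤ u := by omega
  have hu1 : (1 : ℤ) ≤ u := by exact_mod_cast hupos
  have hk0 : (0 : ℤ) ≤ k := by positivity
  have h8 : (8 * (k + 1) : ℤ) ≤ u := by exact_mod_cast hu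
  have hwz : (w : ℤ) = (k + 1) * u := by rw [hw]; push_cast; ring
  have hJz : (J : ℤ) = 60 * (k + 1) ^ 2 := by rw [hJ]; push_cast; ring
  have key := lower (d := d) (ℓ := ℓ) (J := J) (V := (2 * k + 1) * u) (m := k * u)
    (L := side w) hd c'
    (by
      intro t ht
      have h := htr ⟨t, ht⟩
      have e1 : c' (t + 1) = c (Fin.succ ⟨t, ht⟩) := by
        simp only [hc']
        congr 1
        apply Fin.ext
        simp only [Fin.succ_mk]
        omega
      have e2 : c' t = c (Fin.castSucc ⟨t, ht⟩) := by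
        simp only [hc']
        congr 1
        apply Fin.ext
        simp only [Fin.castSucc_mk]
        omega
      rw [e1, e2]
      refine ⟨h.1, fun k' => ?_⟩
      have h2 := h.2 k'
      simp only [Set.mem_insert_iff, Set.mem_singleton_iff] at h2
      rcases h2 with h2 | h2 | h2 <;> rw [h2] <;> simp)
    (fun j => idx ⟨min (j + 1) (J + 2), by omega⟩)
    (by
      intro j hj
      have : idx ⟨min (j + 1) (J + 2), by omega⟩ ≤ idx ⟨min (j + 1 + 1) (J + 2), by omega⟩ := by
        apply hidx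
        simp only [Fin.mk_le_mk]
        omega
      exact this)
    (by omega)
    (by
      intro j hj
      have h := hvis ⟨min (j + 1) (J + 2), by omega⟩
      have e1 : c' (idx ⟨min (j + 1) (J + 2), by omega⟩)
          = c (idx ⟨min (j + 1) (J + 2), by omega⟩) := by
        simp only [hc']
        congr 1
        apply Fin.ext
        simp only
        omega
      rw [e1]
      have e2 : cities d w J ⟨min (j + 1) (J + 2), by omega⟩
          = pt d (corner (side w) j).1 (corner (side w) j).2 := by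
        have h1 : min (j + 1) (J + 2) = j + 1 := by omega
        have h2 : j ≤ J := hj
        simp [cities, citiesN, h1, h2]
      rw [← e2]
      exact h)
    (by
      intro t _ k'
      exact hcap _ k')
    (by nlinarith) (by positivity)
    (by
      unfold side
      rw [hwz]
      push_cast
      have e : (3 * (((k : ℤ) + 1) * u) ^ 2 + 3 * ((k + 1) * u) + 1) - (k * u * (2 * ((2 * k + 1) * u)
        - k * u) + 3 * ((2 * k + 1) * u)) = (4 * k + 3) * u * u - 3 * k * u + 1 := by ring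
      have h2 : 3 * (k : ℤ) * u ≤ (4 * k + 3) * u * u := by
        have h3 : 3 * (k : ℤ) * u ≤ (4 * k + 3) * u := by nlinarith
        have h4 : (4 * (k : ℤ) + 3) * u * 1 ≤ (4 * k + 3) * u * u :=
          mul_le_mul_of_nonneg_left hu1 (by positivity)
        linarith
      linarith)
  apply arith k u J ℓ hk0 h8 hJz
  · unfold side at key
    rw [hwz] at key
    push_cast at key
    linarith
  · have : (ℓ : ℤ) ≤ J * (2 * w + 1) + 6 * w + 1 := by exact_mod_cast hcon
    rw [hwz] at this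
    exact this

/-- For every dimension `d ≥ 2`, every constant `c < 2 / √3` and every `N` there are cities in
`ℤ^d` with `L ≥ N` for which optimal trajectories exist, and every optimal trajectory has, at
some step and in some dimension, speed strictly greater than `c * √L`. -/
theorem result (d : ℕ) (hd : 2 ≤ d) (c : ℝ) (hc : c < 2 / √3) (N : ℕ) :
    ∃ (n : ℕ) (x : Fin (n + 1) → Fin d → ℤ), N ≤ spread x ∧
      (∃ (ℓ : ℕ) (t : Fin (ℓ + 1) → Config d), Optimal x t) ∧
      ∀ (ℓ : ℕ) (t : Fin (ℓ + 1) → Config d), Optimal x t →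
        ∃ (i : Fin (ℓ + 1)) (k : Fin d), c * √(spread x) < |((t i).vel k : ℝ)| := by
  -- reduce to `c ≥ 0`
  wlog hc0 : 0 ≤ c generalizing c with H
  · push Not at hc0
    obtain ⟨n, x, h1, h2, h3⟩ := H 0 (by positivity) le_rfl
    refine ⟨n, x, h1, h2, fun ℓ t ht => ?_⟩
    obtain ⟨i, k, h⟩ := h3 ℓ t ht
    refine ⟨i, k, lt_of_le_of_lt ?_ h⟩
    exact mul_le_mul_of_nonneg_right hc0.le (Real.sqrt_nonneg _)
  have hc2 : c ^ 2 < 4 / 3 := by
    have h3 : (0 : ℝ) ≤ 2 / √3 := by positivity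
    have h4 : c ^ 2 < (2 / √3) ^ 2 := by
      apply pow_lt_pow_left₀ hc hc0 (by norm_num)
    rwa [div_pow, Real.sq_sqrt (by norm_num : (0 : ℝ) ≤ 3), show (2 : ℝ) ^ 2 = 4 by norm_num] at h4
  obtain ⟨ε, hε, hεc⟩ : ∃ ε : ℝ, 0 < ε ∧ c ^ 2 = (4 - ε) / 3 := ⟨4 - 3 * c ^ 2, by linarith, by ring⟩
  obtain ⟨k, hk⟩ := exists_nat_ge (4 / ε)
  have hkε : 4 ≤ k * ε := by
    rwa [div_le_iff₀ hε] at hk
  obtain ⟨u, hu8, huN⟩ : ∃ u : ℕ, 8 * (k + 1) ≤ u ∧ N ≤ u :=
    ⟨max (8 * (k + 1)) N, le_max_left _ _, le_max_right _ _⟩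
  have hupos : 1 ≤ u := by omega
  obtain ⟨w, hwdef⟩ : ∃ w, w = (k + 1) * u := ⟨_, rfl⟩
  obtain ⟨J, hJdef⟩ : ∃ J, J = 60 * (k + 1) ^ 2 := ⟨_, rfl⟩
  have hw : 1 ≤ w := by rw [hwdef]; exact Nat.one_le_iff_ne_zero.2 (by positivity)
  have hJ4 : J % 4 = 0 := by
    rw [hJdef, show 60 * (k + 1) ^ 2 = 4 * (15 * (k + 1) ^ 2) by ring]; exact Nat.mul_mod_right _ _
  have hJ1 : 1 ≤ J := by rw [hJdef]; exact Nat.one_le_iff_ne_zero.2 (by positivity)
  have hspread := spread_eq d w J hd hw hJ1
  refine ⟨J + 2, cities d w J, ?_, ?_, ?_⟩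
  · have h1 : (N : ℤ) ≤ side w := by
      unfold side
      have h2 : (N : ℤ) ≤ u := by exact_mod_cast huN
      have h3 : (u : ℤ) ≤ (w : ℤ) := by
        rw [hwdef]
        push_cast
        have : (0 : ℤ) ≤ k := by positivity
        nlinarith
      have h4 : (0 : ℤ) ≤ (w : ℤ) := by positivity
      nlinarith
    rw [← hspread] at h1
    exact_mod_cast h1
  · -- an optimal trajectory exists
    obtain ⟨c0, h0⟩ := feasible_exists d w J hw hJ4
    classical
    have hex : ∃ ℓ, ∃ t : Fin (ℓ + 1) → Config d, Feasible (cities d w J) t := ⟨_, c0, h0⟩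
    obtain ⟨t, ht⟩ := Nat.find_spec hex
    exact ⟨Nat.find hex, t, ht, fun ℓ' c' h' => Nat.find_min' hex ⟨c', h'⟩⟩
  · intro ℓ t ht
    by_contra hcon
    push Not at hcon
    -- `c √L ≤ V`
    have hsp : ((spread (cities d w J) : ℕ) : ℝ) = 3 * (((k : ℝ) + 1) * u) ^ 2
        + 3 * ((k + 1) * u) + 1 := by
      have : (((spread (cities d w J) : ℕ) : ℤ) : ℝ) = ((side w : ℤ) : ℝ) := by
        rw [hspread]
      rw [side, hwdef] at this
      push_cast at this
      rw [hwdef]
      exact_mod_cast this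
    have hk0 : (0 : ℝ) ≤ k := by positivity
    have hur : (8 * (k + 1) : ℝ) ≤ u := by exact_mod_cast hu8
    have hu0 : (0 : ℝ) ≤ u := by positivity
    have hV : c * √(spread (cities d w J)) ≤ (2 * k + 1) * u := by
      have hVn : (0 : ℝ) ≤ (2 * k + 1) * u := by positivity
      apply le_of_sq_le_sq _ hVn
      rw [mul_pow, Real.sq_sqrt (by positivity), hsp, hεc]
      have e : ((2 * (k : ℝ) + 1) * u) ^ 2 - (4 - ε) / 3 * (3 * (((k : ℝ) + 1) * u) ^ 2
        + 3 * ((k + 1) * u) + 1) = (ε * (k + 1) ^ 2 - 4 * k - 3) * u ^ 2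
        - (4 - ε) / 3 * (3 * ((k + 1) * u) + 1) := by ring
      have h1 : (1 : ℝ) ≤ ε * (k + 1) ^ 2 - 4 * k - 3 := by nlinarith
      have h2 : (u : ℝ) ^ 2 ≤ (ε * (k + 1) ^ 2 - 4 * k - 3) * u ^ 2 := by nlinarith [sq_nonneg (u : ℝ)]
      have h3 : (4 - ε) / 3 * (3 * ((k + 1) * u) + 1) ≤ 4 / 3 * (3 * ((k + 1) * (u : ℝ)) + 1) := by
        apply mul_le_mul_of_nonneg_right (by linarith) (by positivity)
      nlinarith
    have hcap : ∀ i k', |(t i).vel k'| ≤ (((2 * k + 1) * u : ℕ) : ℤ) := by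
      intro i k'
      have h1 := le_trans (hcon i k') hV
      have h2 : (((|(t i).vel k'| : ℤ)) : ℝ) ≤ ((((2 * k + 1) * u : ℕ) : ℤ) : ℝ) := by
        push_cast
        exact h1
      exact_mod_cast h2
    have h1 := slow_not_short d k u w J hwdef hJdef hd hu8 t ht.1 hcap
    obtain ⟨c0, h0⟩ := feasible_exists d w J hw hJ4
    have h2 := ht.2 _ c0 h0
    omega

end Pool.Agent.Results.MP_98930f_lc.SpeedBound
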